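import Pool.Agent.H78.XQ.Targets
import Pool.Agent.H3.NB.L12

/-!
# SWL: random restrictions turn a formula into a decision tree
-/

set_option autoImplicit false

namespace Pool.Agent.H33.XQ

open Finset Pool.Agent.H6.NB Pool.Agent.H78.XQ
open Pool.Agent.H68.AC (PA Ckt fd Wt rho Ext ind mrg mask)

/-- SWL: random restrictions turn a formula into a decision tree. -/
theorem swl (hCKT : Pool.Agent.H6.NB.T_CKT) : T_SWL := by
  intro V _ _ S d w f hw hf
  obtain ⟨s, C, hs, hC⟩ := hCKT V S d f hf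
  have hwr : (1 : ℝ) ≤ w := by exact_mod_cast hw
  set q : ℝ := 1 / (128 * (w : ℝ)) with hq
  have hq0 : 0 < q := by positivity
  have hq2 : q ≤ 1 / 2 := by
    rw [hq]
    apply one_div_le_one_div_of_le (by norm_num)
    linarith
  have hqw : 128 * (w : ℝ) * q = 1 := by
    rw [hq]
    field_simp
  have hA := Pool.Agent.H68.AC.A V s (d + 1) C w ∅ (1 / 2) q hw (by norm_num) (le_refl _) hq0 hq2
    (by nlinarith)
  rw [Finset.card_empty, pow_zero, mul_one] at hA
  refine ⟨fun R => ∃ g, w < (C.T ∅ R g).depth, ?_, ?_⟩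
  · have e1 : (s : ℝ) * (3 / 2 / 2 ^ (w + 1)) ≤ ((S : ℝ) + 1) ^ (d + 1) / 2 ^ w := by
      have e2 : (s : ℝ) ≤ ((S : ℝ) + 1) ^ (d + 1) := by exact_mod_cast hs
      have e3 : (3 / 2 / 2 ^ (w + 1) : ℝ) ≤ 1 / 2 ^ w := by
        rw [pow_succ, div_div, div_le_div_iff₀ (by positivity) (by positivity)]
        have : (0 : ℝ) < 2 ^ w := by positivity
        linarith
      calc (s : ℝ) * (3 / 2 / 2 ^ (w + 1)) ≤ ((S : ℝ) + 1) ^ (d + 1) * (1 / 2 ^ w) :=
            mul_le_mul e2 e3 (by positivity) (by positivity)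
        _ = _ := by ring
    exact hA.trans e1
  · intro R hbad
    push Not at hbad
    refine ⟨C.T ∅ R C.out, hbad _, fun y hy => ?_⟩
    rw [← hC]
    symm
    apply Pool.Agent.H68.AC.cor_t V s (d + 1) C ∅ R C.out
    intro v b hv
    have h6 : fd R (C.lev C.out + 1) v = some b := by
      simpa [rho, mask] using hv
    exact hy v b (Pool.Agent.H3.NB.L12.fd_mono R (C.lev C.out + 1) (d + 1) (C.lev_lt C.out) v b h6)

end Pool.Agent.H33.XQ
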